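import Mathlib

set_option autoImplicit false

open LaurentPolynomial

/-!
# The Kirillov-Melnikov identity `A_n(q) = B_n(q)`

We work in the ring `ℤ[q, q⁻¹]` of Laurent polynomials; the indeterminate `q` is `T 1`,
and `T k` is `q ^ k` for an integer `k`.

Key fact proved below (`ev_triB`): for every finite field `F` with `q` elements,
`b_{k,l}(q) = q ^ l * #{X : X is a strictly upper triangular square matrix of size k + l + 1
with X ^ 2 = 0 whose column number l (counted from 0) is zero}`.
-/

namespace Pool.Agent.Results.MP_1cd45c_al.AnEqualsBn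

/-- The Laurent polynomials `A_n^r(q)` (`n` a natural number, `r` an integer) of the problem:
`A_0^0 = 1`, `A_0^r = 0` for `r ≠ 0`, and
`A_{n+1}^{r} = q^r A_n^r + (q^{n-(r-1)} - q^{r-1}) A_n^{r-1}`
(this is the recursion of the problem with `r + 1` renamed `r`). -/
noncomputable def rankA : ℕ → ℤ → LaurentPolynomial ℤ
  | 0, r => if r = 0 then 1 else 0
  | n + 1, r => T r * rankA n r + (T ((n : ℤ) - (r - 1)) - T (r - 1)) * rankA n (r - 1)

/-- `A_n(q) = ∑_{r = 0}^{n} A_n^r(q)`. -/
noncomputable def polyA (n : ℕ) : LaurentPolynomial ℤ :=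
  ∑ r ∈ Finset.range (n + 1), rankA n (r : ℤ)

/-- The `q`-analogue `b_{k,l}(q)` of the Euler-Bernoulli triangle: `b_{0,0} = 1`,
`b_{0,l} = q^l b_{l-1,0}` for `l ≥ 1`, and
`b_{k,l} = q^{-1} b_{k-1,l+1} + (q^{l+1} - q^l) b_{l,k-1}` for `k ≥ 1`. -/
noncomputable def triB : ℕ → ℕ → LaurentPolynomial ℤ
  | 0, 0 => 1
  | 0, l + 1 => T ((l : ℤ) + 1) * triB l 0
  | k + 1, l => T (-1) * triB k (l + 1) + (T ((l : ℤ) + 1) - T (l : ℤ)) * triB l k
termination_by k l => (k + l, k)
decreasing_by
  all_goals simp_wf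
  all_goals rw [Prod.lex_def]
  all_goals simp only []
  all_goals omega

/-- `B_n(q) = b_{n-1,0}(q)`, used for `n ≥ 1`. -/
noncomputable def polyB (n : ℕ) : LaurentPolynomial ℤ :=
  triB (n - 1) 0

section Count

variable {F : Type} [Field F] [Fintype F]

/-- strictly upper triangular, square zero -/
def SU {n : ℕ} (X : Matrix (Fin n) (Fin n) F) : Prop :=
  (∀ i j, j ≤ i → X i j = 0) ∧ X * X = 0

variable (F)

/-- number with column m zero -/
noncomputable def cC (n m : ℕ) : ℕ :=
  Nat.card {X : Matrix (Fin n) (Fin n) F // SU X ∧ ∀ i j, j.val = m → X i j = 0}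

/-- number with row p zero -/
noncomputable def cZ (n p : ℕ) : ℕ :=
  Nat.card {X : Matrix (Fin n) (Fin n) F // SU X ∧ ∀ i j, i.val = p → X i j = 0}

/-- pairs -/
noncomputable def cT (n m : ℕ) : ℕ :=
  Nat.card {P : (Fin n → F) × Matrix (Fin n) (Fin n) F //
    SU P.2 ∧ (∀ j, j.val < m → P.1 j = 0) ∧ Matrix.vecMul P.1 P.2 = 0}

/-- anti-transpose equivalence -/
def antiT (n : ℕ) : Matrix (Fin n) (Fin n) F ≃ Matrix (Fin n) (Fin n) F where
  toFun X := (X.submatrix Fin.rev Fin.rev).transpose
  invFun X := (X.submatrix Fin.rev Fin.rev).transpose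
  left_inv X := by ext i j; simp
  right_inv X := by ext i j; simp

variable {F}

omit [Fintype F] in
lemma SU_antiT {n : ℕ} (X : Matrix (Fin n) (Fin n) F) : SU (antiT F n X) ↔ SU X := by
  have key : ∀ X : Matrix (Fin n) (Fin n) F, SU X → SU (antiT F n X) := by
    intro X hX
    refine ⟨?_, ?_⟩
    · intro i j hij
      simp only [antiT, Equiv.coe_fn_mk, Matrix.transpose_apply, Matrix.submatrix_apply]
      exact hX.1 _ _ (by simpa using hij)
    · simp only [antiT, Equiv.coe_fn_mk]
      rw [← Matrix.transpose_mul]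
      have : X.submatrix (Fin.rev : Fin n → Fin n) (Fin.rev : Fin n → Fin n) * X.submatrix (Fin.rev : Fin n → Fin n) (Fin.rev : Fin n → Fin n) = (X * X).submatrix Fin.rev Fin.rev := by
        exact Matrix.submatrix_mul_equiv X X (Fin.rev : Fin n → Fin n) (Fin.revPerm : Fin n ≃ Fin n) (Fin.rev : Fin n → Fin n)
      rw [this, hX.2]
      simp
  constructor
  · intro h
    have := key _ h
    have h2 : antiT F n (antiT F n X) = X := (antiT F n).left_inv X
    rwa [h2] at this
  · exact key X

omit [Fintype F] in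
lemma cZ_eq (n p : ℕ) (hp : p < n) : cZ F n p = cC F n (n - 1 - p) := by
  unfold cZ cC
  refine Nat.card_congr (Equiv.subtypeEquiv (antiT F n) ?_)
  intro X
  rw [SU_antiT]
  refine and_congr Iff.rfl ?_
  simp only [antiT, Equiv.coe_fn_mk, Matrix.transpose_apply, Matrix.submatrix_apply]
  constructor
  · intro h i j hj
    apply h
    rw [Fin.val_rev]; omega
  · intro h i j hi
    have := h (Fin.rev j) (Fin.rev i) (by rw [Fin.val_rev]; omega)
    simpa using this

/-- insert a row and a zero column at position `c` -/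
def insM {n : ℕ} (c : Fin (n + 1)) (P : (Fin n → F) × Matrix (Fin n) (Fin n) F) :
    Matrix (Fin (n + 1)) (Fin (n + 1)) F :=
  c.insertNth (α := fun _ => Fin (n + 1) → F) (c.insertNth (α := fun _ => F) 0 P.1)
    (fun i => c.insertNth (α := fun _ => F) 0 (P.2 i))

/-- delete row and column at position `c`, remember the row -/
def delM {n : ℕ} (c : Fin (n + 1)) (X : Matrix (Fin (n + 1)) (Fin (n + 1)) F) :
    (Fin n → F) × Matrix (Fin n) (Fin n) F :=
  (fun j => X c (c.succAbove j), fun i j => X (c.succAbove i) (c.succAbove j))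

omit [Fintype F] in
@[simp] lemma insM_cc {n : ℕ} (c : Fin (n + 1)) (P : (Fin n → F) × Matrix (Fin n) (Fin n) F) :
    insM c P c c = 0 := by simp [insM]
omit [Fintype F] in
@[simp] lemma insM_cs {n : ℕ} (c : Fin (n + 1)) (P : (Fin n → F) × Matrix (Fin n) (Fin n) F)
    (j : Fin n) : insM c P c (c.succAbove j) = P.1 j := by simp [insM]
omit [Fintype F] in
@[simp] lemma insM_sc {n : ℕ} (c : Fin (n + 1)) (P : (Fin n → F) × Matrix (Fin n) (Fin n) F)
    (i : Fin n) : insM c P (c.succAbove i) c = 0 := by simp [insM]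
omit [Fintype F] in
@[simp] lemma insM_ss {n : ℕ} (c : Fin (n + 1)) (P : (Fin n → F) × Matrix (Fin n) (Fin n) F)
    (i j : Fin n) : insM c P (c.succAbove i) (c.succAbove j) = P.2 i j := by simp [insM]

omit [Fintype F] in
lemma del_ins {n : ℕ} (c : Fin (n + 1)) (P : (Fin n → F) × Matrix (Fin n) (Fin n) F) :
    delM c (insM c P) = P := by
  ext i j <;> simp [delM]

omit [Fintype F] in
lemma ins_del {n : ℕ} (c : Fin (n + 1)) (X : Matrix (Fin (n + 1)) (Fin (n + 1)) F)
    (hX : ∀ i, X i c = 0) : insM c (delM c X) = X := by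
  ext i j
  refine Fin.succAboveCases c ?_ (fun i' => ?_) i <;>
  refine Fin.succAboveCases c ?_ (fun j' => ?_) j <;> simp [delM, hX]

omit [Fintype F] in
lemma SU_insM {n : ℕ} (c : Fin (n + 1)) (P : (Fin n → F) × Matrix (Fin n) (Fin n) F) :
    SU (insM c P) ↔ SU P.2 ∧ (∀ j, j.val < c.val → P.1 j = 0) ∧ Matrix.vecMul P.1 P.2 = 0 := by
  have hlt : ∀ j : Fin n, c.succAbove j ≤ c ↔ j.val < c.val := by
    intro j
    rw [Fin.le_def]
    unfold Fin.succAbove
    split_ifs with h
    · rw [Fin.lt_def] at h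
      simp only [Fin.val_castSucc] at h ⊢
      omega
    · rw [Fin.lt_def] at h
      simp only [Fin.val_castSucc, Fin.val_succ] at h ⊢
      omega
  constructor
  · rintro ⟨h1, h2⟩
    refine ⟨⟨?_, ?_⟩, ?_, ?_⟩
    · intro i j hij
      have := h1 (c.succAbove i) (c.succAbove j) (by simpa using hij)
      simpa using this
    · ext i j
      have := congrFun (congrFun h2 (c.succAbove i)) (c.succAbove j)
      rw [Matrix.mul_apply, Fin.sum_univ_succAbove _ c] at this
      simpa [Matrix.mul_apply] using this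
    · intro j hj
      have := h1 c (c.succAbove j) ((hlt j).2 hj)
      simpa using this
    · ext j
      have := congrFun (congrFun h2 c) (c.succAbove j)
      rw [Matrix.mul_apply, Fin.sum_univ_succAbove _ c] at this
      simpa [Matrix.vecMul, dotProduct] using this
  · rintro ⟨⟨h1, h2⟩, h3, h4⟩
    refine ⟨?_, ?_⟩
    · intro i j
      refine Fin.succAboveCases c ?_ (fun i' => ?_) i <;>
      refine Fin.succAboveCases c ?_ (fun j' => ?_) j
      · simp
      · intro h
        simpa using h3 j' ((hlt j').1 h)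
      · simp
      · intro h
        simpa using h1 i' j' (by simpa using h)
    · ext i j
      rw [Matrix.mul_apply, Fin.sum_univ_succAbove _ c]
      refine Fin.succAboveCases c ?_ (fun i' => ?_) i <;>
      refine Fin.succAboveCases c ?_ (fun j' => ?_) j
      · simp
      · have := congrFun h4 j'
        simpa [Matrix.vecMul, dotProduct] using this
      · simp
      · have := congrFun (congrFun h2 i') j'
        simpa [Matrix.mul_apply] using this

omit [Fintype F] in
lemma cC_succ (n m : ℕ) (hm : m ≤ n) : cC F (n + 1) m = cT F n m := by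
  unfold cC cT
  set c : Fin (n + 1) := ⟨m, by omega⟩ with hc
  refine Nat.card_congr ⟨fun X => ⟨delM c X.1, ?_⟩, fun P => ⟨insM c P.1, ?_, ?_⟩, ?_, ?_⟩
  · have hX : insM c (delM c X.1) = X.1 := ins_del c X.1 (fun i => X.2.2 i c rfl)
    have := (SU_insM c (delM c X.1)).1 (by rw [hX]; exact X.2.1)
    exact this
  · exact (SU_insM c P.1).2 P.2
  · intro i j hj
    have : j = c := Fin.ext hj
    subst this
    refine Fin.succAboveCases c ?_ (fun i' => ?_) i <;> simp
  · intro X
    apply Subtype.ext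
    exact ins_del c X.1 (fun i => X.2.2 i c rfl)
  · intro P
    apply Subtype.ext
    exact del_ins c P.1

/-- number of square-zero strictly upper triangular matrices -/
noncomputable def cN (F : Type) [Field F] (n : ℕ) : ℕ :=
  Nat.card {X : Matrix (Fin n) (Fin n) F // SU X}

omit [Fintype F] in
lemma cT_self (n : ℕ) : cT F n n = cN F n := by
  unfold cT cN
  refine Nat.card_congr ⟨fun P => ⟨P.1.2, P.2.1⟩, fun X => ⟨(0, X.1), X.2, ?_, ?_⟩, ?_, ?_⟩
  · intro j _; rfl
  · simp
  · intro P
    apply Subtype.ext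
    refine Prod.ext ?_ rfl
    ext j
    exact (P.2.2.1 j j.2).symm
  · intro X
    rfl

omit [Fintype F] in
lemma cC_zero (n : ℕ) : cC F n 0 = cN F n := by
  unfold cC cN
  refine Nat.card_congr (Equiv.subtypeEquivRight ?_)
  intro X
  constructor
  · exact fun h => h.1
  · intro h
    refine ⟨h, ?_⟩
    intro i j hj
    refine h.1 i j ?_
    rw [Fin.le_def, hj]
    exact Nat.zero_le _

/-- elementary upper triangular matrix with row `c` replaced -/
def gM {n : ℕ} (c : Fin n) (ρ : Fin n → F) : Matrix (Fin n) (Fin n) F :=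
  Matrix.updateRow 1 c ρ

/-- the row of the inverse -/
def rinv {n : ℕ} (c : Fin n) (ρ : Fin n → F) : Fin n → F :=
  fun j => if j = c then (ρ c)⁻¹ else -(ρ c)⁻¹ * ρ j

omit [Fintype F] in
lemma gM_row {n : ℕ} (c : Fin n) (ρ : Fin n → F) (M : Matrix (Fin n) (Fin n) F) (j : Fin n) :
    (gM c ρ * M) c j = Matrix.vecMul ρ M j := by
  simp [gM, Matrix.mul_apply, Matrix.vecMul, dotProduct]

omit [Fintype F] in
lemma gM_row_ne {n : ℕ} (c : Fin n) (ρ : Fin n → F) (M : Matrix (Fin n) (Fin n) F) (i j : Fin n)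
    (hi : i ≠ c) : (gM c ρ * M) i j = M i j := by
  simp [gM, Matrix.mul_apply, Matrix.updateRow_ne hi, Matrix.one_apply]

omit [Fintype F] in
lemma gM_mul {n : ℕ} (c : Fin n) (ρ : Fin n → F) (hc : ρ c ≠ 0) :
    gM c ρ * gM c (rinv c ρ) = 1 := by
  ext i j
  by_cases hi : i = c
  · subst hi
    rw [gM_row]
    simp only [Matrix.vecMul, dotProduct]
    rw [← Finset.univ.add_sum_erase _ (Finset.mem_univ i)]
    have : ∀ x ∈ Finset.univ.erase i, ρ x * gM i (rinv i ρ) x j = if x = j then ρ x else 0 := by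
      intro x hx
      have hx' : x ≠ i := by simpa using hx
      simp only [gM, Matrix.updateRow_ne hx', Matrix.one_apply]
      split_ifs <;> simp
    rw [Finset.sum_congr rfl this]
    rw [Finset.sum_ite_eq']
    by_cases hj : j = i
    · subst hj
      simp [gM, rinv, hc]
    · have hj' : i ≠ j := fun h => hj h.symm
      simp [gM, rinv, hj, hj', hc]
  · rw [gM_row_ne _ _ _ _ _ hi]
    simp [gM, Matrix.updateRow_ne hi]

omit [Fintype F] in
lemma gM_mul' {n : ℕ} (c : Fin n) (ρ : Fin n → F) (hc : ρ c ≠ 0) :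
    gM c (rinv c ρ) * gM c ρ = 1 := by
  rw [mul_eq_one_comm]
  exact gM_mul c ρ hc

omit [Fintype F] in
lemma gM_upper {n : ℕ} (c : Fin n) (ρ : Fin n → F) (h : ∀ j, j < c → ρ j = 0) :
    ∀ i j, j < i → gM c ρ i j = 0 := by
  intro i j hij
  by_cases hi : i = c
  · subst hi
    simp [gM, h j hij]
  · simp [gM, Matrix.updateRow_ne hi, hij.ne']

omit [Fintype F] in
lemma rinv_upper {n : ℕ} (c : Fin n) (ρ : Fin n → F) (h : ∀ j, j < c → ρ j = 0) :
    ∀ j, j < c → rinv c ρ j = 0 := by
  intro j hj
  simp [rinv, hj.ne, h j hj]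

omit [Fintype F] in
lemma SU_conj {n : ℕ} (g g' X : Matrix (Fin n) (Fin n) F)
    (hg : ∀ i j, j < i → g i j = 0) (hg' : ∀ i j, j < i → g' i j = 0) (h1 : g' * g = 1)
    (hX : SU X) : SU (g * X * g') := by
  refine ⟨?_, ?_⟩
  · intro i j hij
    rw [Matrix.mul_apply]
    apply Finset.sum_eq_zero
    intro k _
    by_cases hk : j < k
    · simp [hg' k j hk]
    · have : (g * X) i k = 0 := by
        rw [Matrix.mul_apply]
        apply Finset.sum_eq_zero
        intro l _
        by_cases hl : l < i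
        · simp [hg i l hl]
        · have : X l k = 0 := hX.1 l k (by
            have := not_lt.1 hk
            have := not_lt.1 hl
            order)
          simp [this]
      simp [this]
  · calc g * X * g' * (g * X * g') = g * X * (g' * g) * X * g' := by simp only [Matrix.mul_assoc]
      _ = g * (X * X) * g' := by rw [h1]; simp only [Matrix.mul_assoc, Matrix.one_mul]
      _ = 0 := by rw [hX.2]; simp

omit [Fintype F] in
lemma pairs_card (n m : ℕ) (hm : m < n) :
    Nat.card {P : (Fin n → F) × Matrix (Fin n) (Fin n) F //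
      (SU P.2 ∧ (∀ j, j.val < m → P.1 j = 0) ∧ Matrix.vecMul P.1 P.2 = 0) ∧ P.1 ⟨m, hm⟩ ≠ 0}
    = Nat.card {ρ : Fin n → F // (∀ j, j.val < m → ρ j = 0) ∧ ρ ⟨m, hm⟩ ≠ 0} * cZ F n m := by
  unfold cZ
  rw [← Nat.card_prod]
  set c : Fin n := ⟨m, hm⟩ with hc
  have up : ∀ ρ : Fin n → F, (∀ j, j.val < m → ρ j = 0) → (∀ j, j < c → ρ j = 0) :=
    fun ρ h j hj => h j hj
  refine Nat.card_congr ⟨fun P => (⟨P.1.1, P.2.1.2.1, P.2.2⟩,
      ⟨gM c P.1.1 * P.1.2 * gM c (rinv c P.1.1), ?_, ?_⟩),
    fun P => ⟨(P.1.1, gM c (rinv c P.1.1) * P.2.1 * gM c P.1.1), ⟨?_, P.1.2.1, ?_⟩, P.1.2.2⟩, ?_, ?_⟩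
  · exact SU_conj _ _ _ (gM_upper c _ (up _ P.2.1.2.1))
      (gM_upper c _ (rinv_upper c _ (up _ P.2.1.2.1))) (gM_mul' c _ P.2.2) P.2.1.1
  · intro i j hi
    have hi' : i = c := Fin.ext hi
    subst hi'
    rw [Matrix.mul_assoc, gM_row, ← Matrix.vecMul_vecMul, P.2.1.2.2]
    simp
  · exact SU_conj _ _ _ (gM_upper c _ (rinv_upper c _ (up _ P.1.2.1)))
      (gM_upper c _ (up _ P.1.2.1)) (gM_mul c _ P.1.2.2) P.2.2.1
  · have h1 : Matrix.vecMul P.1.1 (gM c (rinv c P.1.1) * P.2.1 * gM c P.1.1) =
        fun j => (gM c P.1.1 * (gM c (rinv c P.1.1) * P.2.1 * gM c P.1.1)) c j := by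
      ext j; rw [gM_row]
    rw [h1]
    have h2 : gM c P.1.1 * (gM c (rinv c P.1.1) * P.2.1 * gM c P.1.1) = P.2.1 * gM c P.1.1 := by
      rw [← Matrix.mul_assoc, ← Matrix.mul_assoc, gM_mul c _ P.1.2.2, Matrix.one_mul]
    rw [h2]
    ext j
    rw [Matrix.mul_apply]
    apply Finset.sum_eq_zero
    intro k _
    rw [P.2.2.2 c k rfl, zero_mul]
  · intro P
    apply Subtype.ext
    refine Prod.ext rfl ?_
    simp only
    have h := gM_mul' c _ P.2.2
    calc gM c (rinv c P.1.1) * (gM c P.1.1 * P.1.2 * gM c (rinv c P.1.1)) * gM c P.1.1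
        = (gM c (rinv c P.1.1) * gM c P.1.1) * P.1.2 * (gM c (rinv c P.1.1) * gM c P.1.1) := by
          simp only [Matrix.mul_assoc]
      _ = P.1.2 := by rw [h]; simp
  · intro P
    refine Prod.ext rfl ?_
    apply Subtype.ext
    simp only
    have h := gM_mul c _ P.1.2.2
    calc gM c P.1.1 * (gM c (rinv c P.1.1) * P.2.1 * gM c P.1.1) * gM c (rinv c P.1.1)
        = (gM c P.1.1 * gM c (rinv c P.1.1)) * P.2.1 * (gM c P.1.1 * gM c (rinv c P.1.1)) := by
          simp only [Matrix.mul_assoc]
      _ = P.2.1 := by rw [h]; simp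

lemma rho_card (n m : ℕ) (hm : m < n) :
    Nat.card {ρ : Fin n → F // (∀ j, j.val < m → ρ j = 0) ∧ ρ ⟨m, hm⟩ ≠ 0}
      = (Fintype.card F - 1) * Fintype.card F ^ (n - 1 - m) := by
  classical
  set f : Fin n → Finset F := fun j => if j.val < m then {0} else
    if j.val = m then Finset.univ.erase 0 else Finset.univ with hf
  have h1 : Nat.card {ρ : Fin n → F // (∀ j, j.val < m → ρ j = 0) ∧ ρ ⟨m, hm⟩ ≠ 0}
      = (Fintype.piFinset f).card := by
    rw [Nat.card_eq_fintype_card, Fintype.card_subtype]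
    congr 1
    ext ρ
    simp only [Finset.mem_filter, Finset.mem_univ, true_and, Fintype.mem_piFinset]
    constructor
    · rintro ⟨h1, h2⟩ j
      simp only [hf]
      split_ifs with h3 h4
      · simpa using h1 j h3
      · have : j = ⟨m, hm⟩ := Fin.ext h4
        subst this
        simpa using h2
      · simp
    · intro h
      refine ⟨?_, ?_⟩
      · intro j hj
        have := h j
        simpa [hf, hj] using this
      · have := h ⟨m, hm⟩
        simpa [hf] using this
  rw [h1, Fintype.card_piFinset]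
  set w : ℕ → ℕ := fun i => if i < m then 1 else
      if i = m then Fintype.card F - 1 else Fintype.card F with hw
  have h2 : ∀ j : Fin n, (f j).card = w j.val := by
    intro j
    simp only [hf, hw]
    split_ifs
    · simp
    · rw [Finset.card_erase_of_mem (Finset.mem_univ _), Finset.card_univ]
    · rw [Finset.card_univ]
  rw [Finset.prod_congr rfl (fun j _ => h2 j), Fin.prod_univ_eq_prod_range w]
  simp only [hw]
  obtain ⟨k, rfl⟩ : ∃ k, n = m + (1 + k) := ⟨n - 1 - m, by omega⟩
  rw [Finset.prod_range_add, Finset.prod_range_add]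
  have e1 : ∏ x ∈ Finset.range m, (if x < m then 1 else
      if x = m then Fintype.card F - 1 else Fintype.card F) = 1 := by
    apply Finset.prod_eq_one
    intro x hx
    simp [Finset.mem_range.1 hx]
  rw [e1]
  have e2 : ∀ x, (if m + (1 + x) < m then 1 else
      if m + (1 + x) = m then Fintype.card F - 1 else Fintype.card F) = Fintype.card F := by
    intro x
    rw [if_neg (by omega), if_neg (by omega)]
  simp only [e2]
  simp
  left
  congr 1
  omega

lemma cT_step (n m : ℕ) (hm : m < n) :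
    cT F n m = cT F n (m + 1) +
      (Fintype.card F - 1) * Fintype.card F ^ (n - 1 - m) * cZ F n m := by
  classical
  rw [← rho_card n m hm, ← pairs_card n m hm]
  unfold cT
  simp only [Nat.card_eq_fintype_card, Fintype.card_subtype]
  rw [← Finset.card_filter_add_card_filter_not (s := Finset.univ.filter
    (fun P : (Fin n → F) × Matrix (Fin n) (Fin n) F =>
    SU P.2 ∧ (∀ j, j.val < m → P.1 j = 0) ∧ Matrix.vecMul P.1 P.2 = 0))
    (fun P => P.1 ⟨m, hm⟩ = 0)]
  rw [Finset.filter_filter, Finset.filter_filter]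
  congr 2
  ext P
  simp only [Finset.mem_filter, Finset.mem_univ, true_and]
  constructor
  · rintro ⟨⟨h1, h2, h3⟩, h4⟩
    refine ⟨h1, ?_, h3⟩
    intro j hj
    rcases Nat.lt_succ_iff_lt_or_eq.1 hj with h | h
    · exact h2 j h
    · have : j = ⟨m, hm⟩ := Fin.ext h
      rw [this]; exact h4
  · rintro ⟨h1, h2, h3⟩
    exact ⟨⟨h1, fun j hj => h2 j (by omega), h3⟩, h2 _ (by simp)⟩

/-- the basic recursion -/
lemma cC_rec (n m : ℕ) (hm : m < n) :
    cC F (n + 1) m = cC F (n + 1) (m + 1) +
      (Fintype.card F - 1) * Fintype.card F ^ (n - 1 - m) * cC F n (n - 1 - m) := by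
  rw [cC_succ n m hm.le, cC_succ n (m + 1) hm, cT_step n m hm, cZ_eq n m hm]

/-- the linear map adding a zero entry in front -/
def Lcons (F : Type) [Field F] (n : ℕ) : (Fin n → F) →ₗ[F] (Fin (n + 1) → F) where
  toFun w := (0 : Fin (n + 1)).insertNth (α := fun _ => F) 0 w
  map_add' v w := by
    ext j
    refine Fin.succAboveCases 0 ?_ (fun i' => ?_) j <;> simp
  map_smul' a w := by
    ext j
    refine Fin.succAboveCases 0 ?_ (fun i' => ?_) j <;> simp

omit [Fintype F] in
lemma Lcons_inj (n : ℕ) : Function.Injective (Lcons F n) := by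
  intro v w h
  ext j
  have := congrFun h ((0 : Fin (n + 1)).succAbove j)
  simpa [Lcons] using this

omit [Fintype F] in
lemma rank_insM {n : ℕ} (P : (Fin n → F) × Matrix (Fin n) (Fin n) F) :
    (insM 0 P).rank =
      Module.finrank F ↥(Submodule.span F (Set.range P.2.row) ⊔ Submodule.span F {P.1}) := by
  rw [Matrix.rank_eq_finrank_span_row]
  have h1 : Set.range (insM 0 P).row = (Lcons F n) '' (Set.range P.2.row ∪ {P.1}) := by
    ext v
    constructor
    · rintro ⟨i, rfl⟩
      refine Fin.succAboveCases 0 ?_ (fun i' => ?_) i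
      · refine ⟨P.1, by simp, ?_⟩
        simp [Lcons, insM, Matrix.row]
      · refine ⟨P.2 i', Or.inl ⟨i', rfl⟩, ?_⟩
        simp only [Lcons, insM, Matrix.row, LinearMap.coe_mk, AddHom.coe_mk,
          Fin.insertNth_apply_succAbove]
    · rintro ⟨w, hw | hw, rfl⟩
      · obtain ⟨i', rfl⟩ := hw
        refine ⟨(0 : Fin (n + 1)).succAbove i', ?_⟩
        simp only [Lcons, insM, Matrix.row, LinearMap.coe_mk, AddHom.coe_mk,
          Fin.insertNth_apply_succAbove]
      · rw [Set.mem_singleton_iff] at hw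
        subst hw
        refine ⟨0, ?_⟩
        simp [Lcons, insM, Matrix.row]
  rw [h1, ← Submodule.map_span, Submodule.span_union]
  exact (LinearEquiv.finrank_eq (Submodule.equivMapOfInjective (Lcons F n) (Lcons_inj n) _)).symm

/-- number of square-zero strictly upper triangular matrices of given rank -/
noncomputable def cR (F : Type) [Field F] (n : ℕ) (s : ℤ) : ℕ :=
  Nat.card {X : Matrix (Fin n) (Fin n) F // SU X ∧ (X.rank : ℤ) = s}

omit [Fintype F] in
lemma row_le {n : ℕ} (X : Matrix (Fin n) (Fin n) F) (hX : SU X) :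
    Submodule.span F (Set.range X.row) ≤ LinearMap.ker X.vecMulLinear := by
  rw [Submodule.span_le]
  rintro v ⟨i, rfl⟩
  simp only [SetLike.mem_coe, LinearMap.mem_ker, Matrix.vecMulLinear_apply]
  ext j
  have := congrFun (congrFun hX.2 i) j
  simpa [Matrix.mul_apply, Matrix.vecMul, dotProduct] using this

lemma card_row {n : ℕ} (X : Matrix (Fin n) (Fin n) F) :
    Nat.card (Submodule.span F (Set.range X.row)) = Fintype.card F ^ X.rank := by
  rw [Module.natCard_eq_pow_finrank (K := F), Matrix.rank_eq_finrank_span_row,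
    Nat.card_eq_fintype_card]

lemma card_ker {n : ℕ} (X : Matrix (Fin n) (Fin n) F) :
    Nat.card (LinearMap.ker X.vecMulLinear) = Fintype.card F ^ (n - X.rank) := by
  rw [Module.natCard_eq_pow_finrank (K := F), Nat.card_eq_fintype_card]
  congr 1
  have h := LinearMap.finrank_range_add_finrank_ker X.vecMulLinear
  rw [range_vecMulLinear, ← Matrix.rank_eq_finrank_span_row] at h
  simp at h
  omega

/-- for a fixed square-zero `X`, the number of admissible rows giving rank `s` -/
lemma fibre_card {n : ℕ} (X : Matrix (Fin n) (Fin n) F) (hX : SU X) (s : ℤ) :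
    (Nat.card {ρ : Fin n → F // Matrix.vecMul ρ X = 0 ∧
      ((Module.finrank F ↥(Submodule.span F (Set.range X.row) ⊔ Submodule.span F {ρ}) : ℕ) : ℤ)
        = s} : ℚ)
    = (Fintype.card F : ℚ) ^ s * (if (X.rank : ℤ) = s then 1 else 0) +
      ((Fintype.card F : ℚ) ^ ((n : ℤ) - s + 1) - (Fintype.card F : ℚ) ^ (s - 1)) *
        (if (X.rank : ℤ) = s - 1 then 1 else 0) := by
  classical
  set R := Submodule.span F (Set.range X.row) with hR
  have hRr : Module.finrank F R = X.rank := (Matrix.rank_eq_finrank_span_row X).symm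
  have hle : R ≤ LinearMap.ker X.vecMulLinear := row_le X hX
  have hin : ∀ ρ ∈ R, Module.finrank F ↥(R ⊔ Submodule.span F {ρ}) = X.rank := by
    intro ρ hρ
    have : R ⊔ Submodule.span F {ρ} = R := by
      rw [sup_eq_left, Submodule.span_le]
      simpa using hρ
    rw [this, hRr]
  have hout : ∀ ρ ∉ R, Module.finrank F ↥(R ⊔ Submodule.span F {ρ}) = X.rank + 1 := by
    intro ρ hρ
    rw [Submodule.finrank_sup_span_singleton hρ, hRr]
  have hker : ∀ ρ, Matrix.vecMul ρ X = 0 ↔ ρ ∈ LinearMap.ker X.vecMulLinear := by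
    intro ρ; simp
  have hrn : X.rank ≤ n := by simpa using Matrix.rank_le_card_width X
  have hq : (Fintype.card F : ℚ) ≠ 0 := by
    have := Fintype.card_pos (α := F)
    positivity
  by_cases h1 : (X.rank : ℤ) = s
  · have e : {ρ : Fin n → F // Matrix.vecMul ρ X = 0 ∧
      ((Module.finrank F ↥(R ⊔ Submodule.span F {ρ}) : ℕ) : ℤ) = s} ≃ R := by
      refine Equiv.subtypeEquivRight ?_
      intro ρ
      constructor
      · rintro ⟨_, h⟩
        by_contra hρ
        rw [hout ρ hρ] at h
        push_cast at h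
        omega
      · intro h
        refine ⟨(hker ρ).2 (hle h), ?_⟩
        rw [hin ρ h, h1]
    rw [Nat.card_congr e, card_row, if_pos h1, if_neg (by omega), ← h1]
    push_cast
    rw [zpow_natCast]
    ring
  · rw [if_neg h1]
    by_cases h2 : (X.rank : ℤ) = s - 1
    · rw [if_pos h2]
      have e : Nat.card {ρ : Fin n → F // Matrix.vecMul ρ X = 0 ∧
        ((Module.finrank F ↥(R ⊔ Submodule.span F {ρ}) : ℕ) : ℤ) = s} + Nat.card R
          = Nat.card (LinearMap.ker X.vecMulLinear) := by
        have e1 : Nat.card (LinearMap.ker X.vecMulLinear) =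
            (Finset.univ.filter (fun ρ => ρ ∈ LinearMap.ker X.vecMulLinear)).card := by
          rw [Nat.card_eq_fintype_card, ← Fintype.card_subtype]
        have e2 : Nat.card R = (Finset.univ.filter (fun ρ => ρ ∈ R)).card := by
          rw [Nat.card_eq_fintype_card, ← Fintype.card_subtype]
        rw [e1, e2, Nat.card_eq_fintype_card, Fintype.card_subtype, add_comm]
        rw [← Finset.card_filter_add_card_filter_not (s := Finset.univ.filter
          (fun ρ => ρ ∈ LinearMap.ker X.vecMulLinear)) (fun ρ => ρ ∈ R)]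
        rw [Finset.filter_filter, Finset.filter_filter]
        congr 2
        · ext ρ
          simp only [Finset.mem_filter, Finset.mem_univ, true_and]
          exact ⟨fun h => ⟨hle h, h⟩, fun h => h.2⟩
        · ext ρ
          simp only [Finset.mem_filter, Finset.mem_univ, true_and]
          rw [← hker]
          refine and_congr Iff.rfl ?_
          constructor
          · intro h hρ
            rw [hin ρ hρ] at h
            omega
          · intro hρ
            rw [hout ρ hρ]
            push_cast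
            omega
      rw [card_row, card_ker] at e
      have e' : (Nat.card {ρ : Fin n → F // Matrix.vecMul ρ X = 0 ∧
        ((Module.finrank F ↥(R ⊔ Submodule.span F {ρ}) : ℕ) : ℤ) = s} : ℚ)
          = (Fintype.card F : ℚ) ^ (n - X.rank) - (Fintype.card F : ℚ) ^ X.rank := by
        have := congrArg (fun x : ℕ => (x : ℚ)) e
        push_cast at this
        linarith
      rw [e']
      have e3 : (n : ℤ) - s + 1 = ((n - X.rank : ℕ) : ℤ) := by
        push_cast [Nat.cast_sub hrn]
        omega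
      have e4 : s - 1 = ((X.rank : ℕ) : ℤ) := by omega
      rw [e3, e4, zpow_natCast, zpow_natCast]
      ring
    · rw [if_neg h2]
      have : IsEmpty {ρ : Fin n → F // Matrix.vecMul ρ X = 0 ∧
        ((Module.finrank F ↥(R ⊔ Submodule.span F {ρ}) : ℕ) : ℤ) = s} := by
        constructor
        rintro ⟨ρ, _, h⟩
        by_cases hρ : ρ ∈ R
        · rw [hin ρ hρ] at h
          exact h1 h
        · rw [hout ρ hρ] at h
          push_cast at h
          omega
      rw [Nat.card_of_isEmpty]
      simp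

omit [Fintype F] in
lemma cR_succ_card (n : ℕ) (s : ℤ) :
    cR F (n + 1) s = Nat.card {P : Matrix (Fin n) (Fin n) F × (Fin n → F) //
      SU P.1 ∧ Matrix.vecMul P.2 P.1 = 0 ∧
      ((Module.finrank F ↥(Submodule.span F (Set.range P.1.row) ⊔ Submodule.span F {P.2}) : ℕ) : ℤ)
        = s} := by
  unfold cR
  have hcol : ∀ X : Matrix (Fin (n + 1)) (Fin (n + 1)) F, SU X → ∀ i, X i 0 = 0 :=
    fun X hX i => hX.1 i 0 (Fin.zero_le _)
  refine Nat.card_congr ⟨fun X => ⟨((delM 0 X.1).2, (delM 0 X.1).1), ?_⟩,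
    fun P => ⟨insM 0 (P.1.2, P.1.1), ?_, ?_⟩, ?_, ?_⟩
  · have hX : insM 0 (delM 0 X.1) = X.1 := ins_del 0 X.1 (hcol X.1 X.2.1)
    have h1 := (SU_insM 0 (delM 0 X.1)).1 (by rw [hX]; exact X.2.1)
    have h2 := rank_insM (delM 0 X.1)
    rw [hX] at h2
    refine ⟨h1.1, h1.2.2, ?_⟩
    simp only
    rw [← h2]
    exact X.2.2
  · exact (SU_insM 0 (P.1.2, P.1.1)).2 ⟨P.2.1, by simp, P.2.2.1⟩
  · rw [rank_insM]
    exact P.2.2.2
  · intro X
    apply Subtype.ext
    exact ins_del 0 X.1 (hcol X.1 X.2.1)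
  · intro P
    apply Subtype.ext
    have := del_ins 0 (P.1.2, P.1.1)
    simp only [this]

lemma cR_sum (n : ℕ) (s : ℤ) : (cR F n s : ℚ) =
    ∑ X : Matrix (Fin n) (Fin n) F, (by classical exact if SU X then (if (X.rank : ℤ) = s then 1 else 0) else 0) := by
  classical
  unfold cR
  rw [Nat.card_eq_fintype_card, Fintype.card_subtype, Finset.card_filter]
  push_cast
  refine Finset.sum_congr rfl ?_
  intro X _
  by_cases h1 : SU X <;> by_cases h2 : (X.rank : ℤ) = s <;> simp [h1, h2]

lemma cR_succ (n : ℕ) (s : ℤ) : (cR F (n + 1) s : ℚ) =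
    (Fintype.card F : ℚ) ^ s * cR F n s +
      ((Fintype.card F : ℚ) ^ ((n : ℤ) - s + 1) - (Fintype.card F : ℚ) ^ (s - 1)) *
        cR F n (s - 1) := by
  classical
  rw [cR_succ_card, Nat.card_congr (Equiv.subtypeProdEquivSigmaSubtype
    (fun (X : Matrix (Fin n) (Fin n) F) (ρ : Fin n → F) => SU X ∧ Matrix.vecMul ρ X = 0 ∧
      ((Module.finrank F ↥(Submodule.span F (Set.range X.row) ⊔ Submodule.span F {ρ}) : ℕ) : ℤ)
        = s)), Nat.card_sigma, cR_sum, cR_sum, Finset.mul_sum, Finset.mul_sum,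
    ← Finset.sum_add_distrib]
  push_cast
  refine Finset.sum_congr rfl ?_
  intro X _
  by_cases hX : SU X
  · rw [if_pos hX, if_pos hX, ← fibre_card X hX s]
    congr 1
    refine Nat.card_congr (Equiv.subtypeEquivRight ?_)
    intro ρ
    exact ⟨fun h => h.2, fun h => ⟨hX, h⟩⟩
  · rw [if_neg hX, if_neg hX]
    have : IsEmpty {ρ : Fin n → F // SU X ∧ Matrix.vecMul ρ X = 0 ∧
      ((Module.finrank F ↥(Submodule.span F (Set.range X.row) ⊔ Submodule.span F {ρ}) : ℕ) : ℤ)
        = s} := ⟨fun h => hX h.2.1⟩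
    rw [Nat.card_of_isEmpty]
    simp

lemma cN_eq (n : ℕ) : (cN F n : ℚ) = ∑ r ∈ Finset.range (n + 1), (cR F n (r : ℤ) : ℚ) := by
  classical
  simp only [cR_sum]
  rw [Finset.sum_comm]
  unfold cN
  rw [Nat.card_eq_fintype_card, Fintype.card_subtype, Finset.card_filter]
  push_cast
  refine Finset.sum_congr rfl ?_
  intro X _
  by_cases hX : SU X
  · simp only [hX, if_true]
    have hrn : X.rank ≤ n := by simpa using Matrix.rank_le_card_width X
    rw [Finset.sum_eq_single X.rank]
    · simp
    · intro b _ hb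
      rw [if_neg]
      intro h
      apply hb
      exact_mod_cast h.symm
    · intro h
      exfalso
      apply h
      simp
      omega
  · simp [hX]

omit [Fintype F] in
lemma cN_zero : cN F 0 = 1 := by
  unfold cN
  have : Unique {X : Matrix (Fin 0) (Fin 0) F // SU X} :=
    { default := ⟨0, by intro i; exact i.elim0, by simp⟩
      uniq := by
        intro X
        apply Subtype.ext
        ext i
        exact i.elim0 }
  exact Nat.card_unique

lemma cR_zero (s : ℤ) : (cR F 0 s : ℚ) = if s = 0 then 1 else 0 := by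
  classical
  rw [cR_sum]
  have hu : (Finset.univ : Finset (Matrix (Fin 0) (Fin 0) F)) = {0} := by
    ext X
    simp only [Finset.mem_univ, Finset.mem_singleton, true_iff]
    ext i
    exact i.elim0
  rw [hu, Finset.sum_singleton]
  have h : SU (0 : Matrix (Fin 0) (Fin 0) F) := ⟨by intro i; exact i.elim0, by simp⟩
  rw [if_pos h]
  simp [eq_comm]

/-- evaluation at the cardinality of the field -/
noncomputable def ev (F : Type) [Field F] [Fintype F] : LaurentPolynomial ℤ →+* ℚ :=
  LaurentPolynomial.eval₂ (Int.castRingHom ℚ)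
    (Units.mk0 (Fintype.card F : ℚ) (by exact_mod_cast Fintype.card_ne_zero))

@[simp] lemma ev_T (k : ℤ) : ev F (T k) = (Fintype.card F : ℚ) ^ k := by
  simp [ev]

lemma ev_rankA (n : ℕ) (s : ℤ) : ev F (rankA n s) = cR F n s := by
  induction n generalizing s with
  | zero =>
    rw [rankA, cR_zero]
    split_ifs <;> simp
  | succ n ih =>
    rw [rankA, cR_succ, show (n : ℤ) - (s - 1) = (n : ℤ) - s + 1 by ring]
    simp only [map_add, map_mul, map_sub, ev_T, ih]

lemma ev_triB (k l : ℕ) : ev F (triB k l) = (Fintype.card F : ℚ) ^ l * cC F (k + l + 1) l := by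
  have hq : (Fintype.card F : ℚ) ≠ 0 := by exact_mod_cast Fintype.card_ne_zero
  induction k, l using triB.induct with
  | case1 =>
    rw [triB]
    have : cC F (0 + 0 + 1) 0 = 1 := by
      rw [cC_succ 0 0 le_rfl, cT_self, cN_zero]
    rw [this]
    simp
  | case2 l ih =>
    rw [triB]
    simp only [map_mul, ev_T, ih]
    have e1 : cC F (0 + (l + 1) + 1) (l + 1) = cC F (l + 0 + 1) 0 := by
      rw [show 0 + (l + 1) + 1 = (l + 1) + 1 from by ring, cC_succ (l + 1) (l + 1) le_rfl, cT_self,
        cC_zero]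
    rw [e1, show ((l : ℤ) + 1) = ((l + 1 : ℕ) : ℤ) by push_cast; ring, zpow_natCast]
    simp
  | case3 k l ih1 ih2 =>
    rw [triB]
    simp only [map_mul, map_add, map_sub, ev_T, ih1, ih2]
    have e1 := cC_rec (F := F) (k + l + 1) l (by omega)
    rw [show k + l + 1 - 1 - l = k by omega] at e1
    rw [show k + (l + 1) + 1 = k + l + 1 + 1 by ring, show k + 1 + l + 1 = k + l + 1 + 1 by ring,
      show l + k + 1 = k + l + 1 by ring, e1]
    have hc : ((Fintype.card F - 1 : ℕ) : ℚ) = (Fintype.card F : ℚ) - 1 := by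
      rw [Nat.cast_sub Fintype.card_pos]
      simp
    push_cast
    rw [hc, show ((l : ℤ) + 1) = ((l + 1 : ℕ) : ℤ) by push_cast; ring, zpow_natCast, zpow_natCast,
      zpow_neg_one]
    field_simp
    ring

end Count

/-- a Laurent polynomial vanishing at all primes is zero -/
lemma eq_of_primes (f g : LaurentPolynomial ℤ)
    (h : ∀ (p : ℕ) [Fact p.Prime], ev (ZMod p) f = ev (ZMod p) g) : f = g := by
  rw [← sub_eq_zero]
  obtain ⟨n, P, hP⟩ := LaurentPolynomial.exists_T_pow (f - g)
  have hP0 : P = 0 := by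
    refine Polynomial.eq_zero_of_infinite_isRoot P ?_
    have hsub : (fun p : ℕ => (p : ℤ)) '' {p : ℕ | p.Prime} ⊆ {x : ℤ | P.IsRoot x} := by
      rintro x ⟨p, hp, rfl⟩
      have hp' : p.Prime := hp
      have := Fact.mk hp'
      have h1 := h p
      have h2 : ev (ZMod p) (Polynomial.toLaurent P) = 0 := by
        rw [hP, map_mul, map_sub, h1]
        simp
      have h3 : ev (ZMod p) (Polynomial.toLaurent P) = ((P.eval (p : ℤ) : ℤ) : ℚ) := by
        unfold ev
        rw [LaurentPolynomial.eval₂_toLaurent]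
        simp only [Units.val_mk0, ZMod.card]
        rw [show ((p : ℕ) : ℚ) = (Int.castRingHom ℚ) (p : ℤ) by simp, Polynomial.eval₂_at_apply]
        simp
      rw [h3] at h2
      show P.eval (p : ℤ) = 0
      exact_mod_cast h2
    refine Set.Infinite.mono hsub ?_
    refine Set.Infinite.image ?_ Nat.infinite_setOfPred_prime
    exact fun a _ b _ hab => by exact_mod_cast hab
  rw [hP0] at hP
  have h4 : (f - g) * T (n : ℤ) * T (-(n : ℤ)) = 0 := by
    rw [← hP]; simp
  rw [mul_assoc, ← LaurentPolynomial.T_add] at h4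
  simpa using h4

/-- **Main theorem.** `A_n(q) = B_n(q)` as Laurent polynomials in `q`, for every `n ≥ 1`. -/
theorem result (n : ℕ) (hn : 1 ≤ n) : polyA n = polyB n := by
  unfold polyA polyB
  refine eq_of_primes _ _ ?_
  intro p hp
  rw [map_sum, ev_triB]
  simp only [ev_rankA]
  rw [← cN_eq]
  obtain ⟨m, rfl⟩ : ∃ m, n = m + 1 := ⟨n - 1, by omega⟩
  simp [cC_zero]

end Pool.Agent.Results.MP_1cd45c_al.AnEqualsBn
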